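import Pool.Agent.W774.TL.Stm

set_option autoImplicit false

/-! Project TL (helper774): summability of the majorants. -/

namespace Pool.Agent.W145.TL

open Pool.Agent.W774.TL Filter

theorem sq_le_three_pow (n : ℕ) : ((n : ℝ)) ^ 2 ≤ 3 ^ n := by
  have h : ∀ n : ℕ, n ^ 2 ≤ 3 ^ n := by
    intro n
    induction n with
    | zero => simp
    | succ m ih =>
      rcases Nat.lt_or_ge m 2 with hm | hm
      · interval_cases m <;> simp
      · calc (m + 1) ^ 2 ≤ 3 * m ^ 2 := by nlinarith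
          _ ≤ 3 * 3 ^ m := Nat.mul_le_mul_left _ ih
          _ = 3 ^ (m + 1) := by ring
  exact_mod_cast h n

noncomputable def v (k : ℕ) (R : ℝ) (n : ℕ) : ℝ :=
  ((3 : ℝ) ^ n) ^ k * Real.exp (R * n - 3 ^ n / 2)

theorem v_summable (k : ℕ) (R : ℝ) : Summable (v k R) := by
  have hs : Summable (fun n : ℕ => Real.exp (-(n : ℝ))) := Real.summable_exp_neg_nat
  refine Summable.of_norm_bounded_eventually_nat hs ?_
  set c : ℝ := k * Real.log 3 + R + 1 with hc
  filter_upwards [eventually_ge_atTop (Nat.ceil (2 * c))] with n hn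
  have hn' : 2 * c ≤ (n : ℝ) := (Nat.le_ceil _).trans (by exact_mod_cast hn)
  have h1 : v k R n = Real.exp (n * (k * Real.log 3) + (R * n - 3 ^ n / 2)) := by
    unfold v
    rw [Real.exp_add]
    congr 1
    have : ((3 : ℝ) ^ n) ^ k = Real.exp (Real.log (((3 : ℝ) ^ n) ^ k)) := by
      rw [Real.exp_log (by positivity)]
    rw [this, Real.log_pow, Real.log_pow]
    congr 1
    ring
  rw [h1, Real.norm_eq_abs, abs_of_pos (Real.exp_pos _)]
  apply Real.exp_le_exp.mpr
  have h2 := sq_le_three_pow n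
  have h3 : c * n ≤ (n : ℝ) ^ 2 / 2 := by nlinarith [Nat.cast_nonneg (α := ℝ) n]
  have h4 : (n : ℝ) * (k * Real.log 3) + R * n + n = c * n := by rw [hc]; ring
  linarith

theorem S_ge (u : ℝ) : -(1 / 4) ≤ S u := by
  unfold S
  have hpi : (3 : ℝ) < Real.pi := Real.pi_gt_three
  rw [le_div_iff₀ (by positivity)]
  have := Real.neg_one_le_sin (2 * Real.pi * u)
  nlinarith

theorem sum_thm : P_SUM := by
  intro k R
  refine ⟨fun j => v k R j.natAbs, ?_, ?_⟩
  · apply Summable.of_nat_of_neg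
    · simpa using v_summable k R
    · simpa using v_summable k R
  · intro j x p t hp
    show _ ≤ ((3 : ℝ) ^ j.natAbs) ^ k * Real.exp (R * j.natAbs - 3 ^ j.natAbs / 2)
    apply mul_le_mul_of_nonneg_left _ (by positivity)
    unfold E
    apply Real.exp_le_exp.mpr
    have h1 : (j : ℝ) * p ≤ R * (j.natAbs : ℝ) := by
      have h2 : ((j.natAbs : ℕ) : ℝ) = |(j : ℝ)| := by
        rw [Nat.cast_natAbs]; simp
      rw [h2]
      calc (j : ℝ) * p ≤ |(j : ℝ) * p| := le_abs_self _
        _ = |(j : ℝ)| * |p| := abs_mul _ _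
        _ ≤ |(j : ℝ)| * R := mul_le_mul_of_nonneg_left hp (abs_nonneg _)
        _ = R * |(j : ℝ)| := mul_comm _ _
    have h3 : (3 : ℝ) ^ j.natAbs / 2 ≤ V j x t := by
      unfold V
      have := S_ge (x - j * t)
      have h5 : (0 : ℝ) < 3 ^ j.natAbs := by positivity
      nlinarith
    linarith

end Pool.Agent.W145.TL
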